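import Pool.Agent.Helper43.BL2.Defs
import Pool.Agent.Helper81.L2.DefsS
import Pool.Agent.Helper14.L2.DefsU

/-!
Project L2 (MP_b8862a_ag): definitions for the final statement.
-/

set_option linter.unusedSectionVars false

open Matrix

namespace L2

/-- The exceptional triples: modules of `SL_m` which are not self-dual; half-spin modules of `D_5`; the modules of dimension
`27` of `E_6`; and if `a = c`, the exceptional pairs of the orthogonal and of the symplectic modules. -/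
def ExcU (a b c : ℕ) : Prop :=
  ExcA a b c ∨ (a = 1 ∧ b = 10 ∧ c = 5) ∨ (a = 5 ∧ b = 10 ∧ c = 1) ∨ (a = 1 ∧ b = 16 ∧ c = 10) ∨
    (a = 10 ∧ b = 16 ∧ c = 1) ∨ (a = 6 ∧ b = 15 ∧ c = 6) ∨ a = c ∧ (LT.Exc a b ∨ ExcS a b)

end L2

namespace MH

variable {n : Type*} [Fintype n] [DecidableEq n]

/-- The block is of symplectic type (in even weight): it carries an invariant alternating form. -/
def SympB (Q : Matrix n n ℚ) (P : ℤ → Matrix n n ℂ) (e : Matrix n n ℂ) : Prop :=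
  ∃ x ∈ EC P, xᵀ * toC Q = -(toC Q * x) ∧ eᵀ * (toC Q * x) * e ≠ 0

/-- The conjugate block `f` of the block `e` has the Hodge numbers `a`, `b`, `c` in the degrees `i`, `(i + j) / 2`, `j`, and no
other ones, with `a`, `c` positive; and either `a + b X + c X ^ 2` is not a product, `a ≠ c` or `b` is positive and the rank is
at least nine, and `(a, b, c)` is not in the list `L2.ExcU`; or `b` is positive, the rank is at least nine, and `e` is of
orthogonal type and `(a, b)` is not in the list `LT.Exc`, or of symplectic type and `(a, b)` is not in the list `L2.ExcS`. -/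
def ThreeL (Q : Matrix n n ℚ) (P : ℤ → Matrix n n ℂ) (e f : Matrix n n ℂ) : Prop :=
  ∃ (i j : ℤ) (a b c : ℕ), (f * P i).rank = a ∧ (f * P j).rank = c ∧ 0 < a ∧ 0 < c ∧ e.rank = a + b + c ∧
    (∀ p, p ≠ i → p ≠ j → 2 * p ≠ i + j → f * P p = 0) ∧
    (IndB (fun p => (f * P p).rank) ∧ (a ≠ c ∨ 9 ≤ e.rank ∧ 0 < b) ∧ ¬ L2.ExcU a b c ∨
      9 ≤ e.rank ∧ 0 < b ∧ (OrthB Q P e ∧ ¬ LT.Exc a b ∨ SympB Q P e ∧ ¬ L2.ExcS a b))

/-- The condition on a block `e` of rank `r`: either the weight is two, `V = V^{2,0} + V^{1,1} + V^{0,2}`, and `9 ≤ r`,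
`(dim V^{2,0} + 1) ^ 2 ≤ r`, or `5 ≤ r`, `dim V^{2,0} ≤ 2` and `e` is not self-dual; or some conjugate satisfies `StarB` and one
of `ThreeL`, `RankB` and `DomB`. -/
def OkL (E E' : Set ℕ) (w : ℤ) (Q : Matrix n n ℚ) (S : Finset ℤ) (P : ℤ → Matrix n n ℂ) (e : Matrix n n ℂ) : Prop :=
  (w = 2 ∧ (∀ p, p ≠ 0 → p ≠ 1 → p ≠ 2 → P p = 0) ∧
      (9 ≤ e.rank ∧ ((P 2).rank + 1) ^ 2 ≤ e.rank ∨ 5 ≤ e.rank ∧ (P 2).rank ≤ 2 ∧ ¬ DualB Q P e)) ∨
    ∃ σ : ℂ ≃+* ℂ, StarB w Q P e σ ∧ (ThreeL Q P e (e.map σ) ∨ RankB E E' w Q P e σ ∨ DomB w Q S P (e.map σ))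

end MH
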