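import Pool.Agent.Helper2.LT.Core

/-!
Project L2 (MP_b8862a_ag): the Euclidean data of a module with an alternating form, with the parity, and the core statement
(copies of helper2's Helper2/LT/{Top,Core}.lean).
-/

set_option linter.unusedSectionVars false
set_option linter.unusedVariables false

open Module LieModule LieAlgebra LieAlgebra.IsKilling AddMonoidAlgebra MTP.MF PF PF.W PF.L PF.CC TF TF.L PW
open Pool.Agent.Helper54.MT (semisimple_of_diag exists_cartan_end killing_of)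

attribute [local instance 100] LieRing.ofAssociativeRing

namespace LT

section top

variable {K : Type*} [Field K] [CharZero K] [IsAlgClosed K]
  {L : Type*} [LieRing L] [LieAlgebra K L] [FiniteDimensional K L] [IsKilling K L]
  {H : LieSubalgebra K L} [H.IsCartanSubalgebra]
  {V : Type*} [AddCommGroup V] [Module K V] [FiniteDimensional K V]
  [LieRingModule L V] [LieModule K L V] {I : Type*} [Fintype I] {ω : LinearMap.BilinForm K V}

/-- **The data.** -/
theorem exists_d3_topO (B : WB (V := V) H I) [Nonempty I] [Nonempty H.root] [(rootSystem H).IsIrreducible] [IsSimple K L]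
    (hirr : ∀ W : Submodule K V, (∀ x : L, ∀ u ∈ W, ⁅x, u⁆ ∈ W) → W = ⊥ ∨ W = ⊤)
    (hfaith : ∀ x : L, (∀ u : V, ⁅x, u⁆ = 0) → x = 0)
    (hnd : ω.Nondegenerate) (hsk : ∀ (x : L) (u v : V), ω ⁅x, u⁆ v = - ω u ⁅x, v⁆)
    {y : H} (a : I → ℤ) (ha : ∀ i, B.w i y = (a i : K)) (ha3 : ∀ i, a i = -1 ∨ a i = 0 ∨ a i = 1) {s : ℕ} (hs : 0 < s)
    (h1 : Fintype.card {i // a i = 1} = s) (h2 : Fintype.card {i // a i = -1} = s) (h3 : 2 * s < Fintype.card I) :
    ∃ l y' v : EuclideanSpace ℝ H.root, AG.D3 (PF.CC.Ph (rootSystem H)) (PF.CC.Xw B) (Fintype.card I) s l y' v ∧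
      Top (PF.CC.Ph (rootSystem H)) (PF.CC.Xw B) l v ∧ (ω.IsAlt → ∃ k : ℤ, ∑ a ∈ Ps (PF.CC.Ph (rootSystem H)) v, co a l = 2 * (k : ℝ) + 1) := by
  classical
  have hy : y ≠ 0 := by
    rintro rfl
    have h4 : 0 < Fintype.card {i // a i = 1} := by omega
    obtain ⟨i, hi⟩ := Fintype.card_pos_iff.1 h4
    have h5 := ha i
    rw [map_zero, hi] at h5
    norm_num at h5
  have hT : ((8 * s : ℕ) : ℤ) = ∑ i, (2 * a i) ^ 2 := by
    have h4 : ∀ i, (2 * a i) ^ 2 = (if a i = 1 then 4 else 0) + (if a i = -1 then 4 else 0) := by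
      intro i
      rcases ha3 i with h | h | h <;> rw [h] <;> norm_num
    rw [Finset.sum_congr rfl fun i _ => h4 i, Finset.sum_add_distrib, ← Finset.sum_filter, ← Finset.sum_filter,
      Finset.sum_const, Finset.sum_const, ← Fintype.card_subtype, ← Fintype.card_subtype, h1, h2]
    push_cast
    ring
  obtain ⟨b⟩ : Nonempty (rootSystem H).Base := (rootSystem H).nonempty_base
  obtain ⟨t, y', hin, -, hrank, htb, hlev⟩ := AG.exists_in2_b b B hirr hfaith hnd hsk hy (fun i => 2 * a i)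
    (fun i => by rw [ha i]; push_cast; ring) (fun i j => ⟨a i - a j, by ring⟩) hT
  obtain ⟨t', v, htb', hPs, hwd⟩ := AG.exists_wd_b b B hirr hfaith hnd hsk
  have htt : PF.CC.vec (PF.CC.wt B t') = PF.CC.vec (PF.CC.wt B t) := by
    have e1 : B.w t' = B.w t := Below.antisymm (htb t') (htb' t)
    congr 1
    funext β
    have e2 := PF.CC.wt_spec B t' β
    rw [e1, PF.CC.wt_spec] at e2
    exact_mod_cast e2.symm
  rw [htt] at hwd
  refine ⟨PF.CC.vec (PF.CC.wt B t), y', v, ⟨hwd, hin, ?_, hs, h3, ?_⟩, ?_, ?_⟩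
  · intro x hx
    obtain ⟨i, rfl⟩ := (PF.CC.mem_Xw B).1 hx
    have h4 := hlev i
    have h5 : (inner ℝ (PF.CC.vec (PF.CC.wt B i)) y' : ℝ) = (a i : ℝ) := by
      rw [h4]
      push_cast
      ring
    rw [h5]
    rcases ha3 i with h | h | h <;> rw [h] <;> norm_num
  · intro h4 h5
    rw [card_adj B hirr hfaith b htb h4 h5, hrank, TF.card_Ph, add_comm (finrank K H), TF.L.card_root_eq H]
  · intro z hz x hx
    obtain ⟨i, rfl⟩ := (PF.CC.mem_Xw B).1 hx
    obtain ⟨κ, hκ⟩ := vec_below B (htb i)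
    rw [hκ, inner_sub_left, sum_inner]
    have h4 : 0 ≤ ∑ j ∈ b.support, (inner ℝ ((κ j : ℝ) • vec (PF.CC.rt (rootSystem H) j)) z : ℝ) := by
      refine Finset.sum_nonneg fun j hj => ?_
      rw [inner_smul_left, real_inner_comm]
      refine mul_nonneg (by simp) (hz _ ?_)
      rw [hPs]
      refine Finset.mem_image.2 ⟨j, ?_, rfl⟩
      have := RootPairing.Base.isPos_of_mem_support hj
      simpa [pos] using this
    linarith
  · intro hsymm
    obtain ⟨d, hd, hev⟩ := odd_rho B hirr hnd hsymm hsk b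
    obtain ⟨k, hk⟩ := hev t
    refine ⟨k, ?_⟩
    have hinj : Set.InjOn (fun α : H.root => vec (PF.CC.rt (rootSystem H) α)) (pos b : Set H.root) :=
      fun α _ β _ h => rt_inj (rootSystem H) (vec_inj h)
    rw [hPs, Finset.sum_image hinj, Finset.sum_congr rfl fun α _ => co_vec _ (wt_wt B t) α]
    have h4 : ((∑ α ∈ pos b, PF.CC.wt B t α : ℤ) : K) = ((2 * k + 1 : ℤ) : K) := by
      have h5 : B.w t (rho2 b) = ((∑ α ∈ pos b, PF.CC.wt B t α : ℤ) : K) := by
        rw [rho2, map_sum, Int.cast_sum]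
        exact Finset.sum_congr rfl fun α _ => PF.CC.wt_spec B t α
      rw [← h5, hd t, hk]
    have h5 : (∑ α ∈ pos b, PF.CC.wt B t α : ℤ) = 2 * k + 1 := by exact_mod_cast h4
    exact_mod_cast h5

end top

/-- BLOCK L1: from the Lie algebra to the Euclidean data and back (as `TF.core_lv`, Helper2/HY/Core) -/
theorem core_ltO {V : Type} [AddCommGroup V] [Module ℂ V] [FiniteDimensional ℂ V] {ω : LinearMap.BilinForm ℂ V}
    (halt : ω.IsAlt) (hnd : ω.Nondegenerate) {L : LieSubalgebra ℂ (Module.End ℂ V)} (hsimp : IsSimple ℂ L)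
    (hirr : ∀ W : Submodule ℂ V, (∀ x ∈ L, ∀ u ∈ W, x u ∈ W) → W = ⊥ ∨ W = ⊤)
    (hsk : ∀ x ∈ L, ∀ u v, ω (x u) v = -ω u (x v))
    (h : Module.End ℂ V) (hh : h ∈ L) {s : ℕ} (hs : 0 < s) (h2s : 2 * s < finrank ℂ V) (h5 : 5 ≤ finrank ℂ V)
    (hsup : Module.End.eigenspace h 1 ⊔ Module.End.eigenspace h 0 ⊔ Module.End.eigenspace h (-1) = ⊤)
    (h1 : finrank ℂ (Module.End.eigenspace h 1) = s) (h2 : finrank ℂ (Module.End.eigenspace h (-1)) = s)
    (hE : ∀ {ι : Type} [Fintype ι] (Φ X : Finset (EuclideanSpace ℝ ι)) (l y v : EuclideanSpace ℝ ι),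
      AG.D3 Φ X (finrank ℂ V) s l y v → Top Φ X l v → (∃ k : ℤ, ∑ a ∈ Ps Φ v, co a l = 2 * (k : ℝ) + 1) → TypeD Φ X)
    (x : Module.End ℂ V) (hx : ∀ u v, ω (x u) v = -ω u (x v)) : x ∈ L := by
  classical
  have hVn : Nontrivial V := by
    by_contra hcon
    rw [not_nontrivial_iff_subsingleton] at hcon
    apply LieAlgebra.IsSimple.non_abelian ℂ (L := L)
    refine ⟨fun x y => Subtype.ext ?_⟩
    exact Subsingleton.elim _ _
  have hSy : MTP.IrrSymp ω L.toSubmodule := ⟨fun x hx y hy => L.lie_mem hx hy, fun x hx => hsk x hx, hirr⟩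
  have hk : IsKilling ℂ L := killing_of hnd hSy
  have hdiag : (⨆ c : ℂ, Module.End.eigenspace h c) = ⊤ := by
    rw [eq_top_iff, ← hsup]
    refine sup_le (sup_le ?_ ?_) ?_
    · exact le_iSup (fun c : ℂ => Module.End.eigenspace h c) 1
    · exact le_iSup (fun c : ℂ => Module.End.eigenspace h c) 0
    · exact le_iSup (fun c : ℂ => Module.End.eigenspace h c) (-1)
  obtain ⟨H, hH, hyH⟩ := exists_cartan_end (L := L) ⟨h, hh⟩ (semisimple_of_diag hdiag)
  have hirrR : (rootSystem H).IsIrreducible := inferInstance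
  have hne : Nonempty H.root := by
    by_contra hcon
    rw [not_nonempty_iff] at hcon
    have hN : Nontrivial H := RootPairing.IsIrreducible.nontrivial' (rootSystem H)
    have h1 : (⊤ : Submodule ℂ H) = ⊥ := by
      have h2 : (rootSystem H).corootSpan ℂ = ⊤ := RootPairing.IsRootSystem.span_coroot_eq_top
      rw [← h2, RootPairing.corootSpan, Set.range_eq_empty, Submodule.span_empty]
    exact bot_ne_top h1.symm
  have hirr' : ∀ W : Submodule ℂ V, (∀ x : L, ∀ u ∈ W, ⁅x, u⁆ ∈ W) → W = ⊥ ∨ W = ⊤ :=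
    fun W hW => hirr W fun z hz w hw => hW ⟨z, hz⟩ w hw
  have hsk' : ∀ (x : L) (u v : V), ω ⁅x, u⁆ v = - ω u ⁅x, v⁆ := by
    intro x u v
    exact hsk x x.2 u v
  have hfaith : ∀ x : L, (∀ u : V, ⁅x, u⁆ = 0) → x = 0 := by
    intro x hx
    apply Subtype.ext
    ext u
    exact hx u
  obtain ⟨m, ⟨B⟩⟩ := exists_WB (V := V) (H := H) hirr'
  have hcard : Fintype.card (Fin m) = finrank ℂ V := by
    rw [Module.finrank_eq_card_basis B.v]
  have hI : Nonempty (Fin m) := by
    rw [← Fintype.card_pos_iff, hcard]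
    exact finrank_pos
  obtain ⟨y', hy'⟩ : ∃ y' : H, y' = ⟨⟨h, hh⟩, hyH⟩ := ⟨_, rfl⟩
  have hact : ∀ i, h (B.v i) = B.w i y' • B.v i := by
    intro i
    have h1 := B.lie_v i y'
    rw [hy'] at h1 ⊢
    exact h1
  -- the eigenvalues
  have hex : ∀ i, ∃ q : ℤ, (q = -1 ∨ q = 0 ∨ q = 1) ∧ B.w i y' = ((q : ℤ) : ℂ) := by
    intro i
    by_contra! hcon
    have n1 : (1 : ℂ) ≠ B.w i y' := by
      intro hc
      exact hcon 1 (Or.inr (Or.inr rfl)) (by rw [← hc]; norm_num)
    have n0 : (0 : ℂ) ≠ B.w i y' := by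
      intro hc
      exact hcon 0 (Or.inr (Or.inl rfl)) (by rw [← hc]; norm_num)
    have nm : (-1 : ℂ) ≠ B.w i y' := by
      intro hc
      exact hcon (-1) (Or.inl rfl) (by rw [← hc]; norm_num)
    have h1 := Module.End.eigenspaces_iSupIndep h (B.w i y')
    have h2 : (⊤ : Submodule ℂ V) ≤ ⨆ j, ⨆ (_ : j ≠ B.w i y'), Module.End.eigenspace h j := by
      rw [← hsup]
      refine sup_le (sup_le ?_ ?_) ?_
      · exact le_iSup₂ (f := fun (j : ℂ) (_ : j ≠ B.w i y') => Module.End.eigenspace h j) 1 n1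
      · exact le_iSup₂ (f := fun (j : ℂ) (_ : j ≠ B.w i y') => Module.End.eigenspace h j) 0 n0
      · exact le_iSup₂ (f := fun (j : ℂ) (_ : j ≠ B.w i y') => Module.End.eigenspace h j) (-1) nm
    rw [top_le_iff] at h2
    rw [h2, disjoint_top] at h1
    have h3 : B.v i ∈ Module.End.eigenspace h (B.w i y') := by
      rw [Module.End.mem_eigenspace_iff]
      exact hact i
    rw [h1, Submodule.mem_bot] at h3
    exact B.v.ne_zero i h3
  choose q hq3 hq using hex
  have hρ : ∀ k : ℤ, Fintype.card {i // q i = k} = finrank ℂ (Module.End.eigenspace h (k : ℂ)) := by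
    intro k
    rw [finrank_eig_diag B.v h (fun i => B.w i y') hact, Fintype.card_subtype]
    congr 1
    ext i
    rw [Finset.mem_filter, Finset.mem_filter, hq i]
    constructor
    · rintro ⟨-, h2⟩
      exact ⟨Finset.mem_univ _, by rw [h2]⟩
    · rintro ⟨-, h2⟩
      exact ⟨Finset.mem_univ _, by exact_mod_cast h2⟩
  have c1 : Fintype.card {i // q i = 1} = s := by
    rw [hρ 1, Int.cast_one]
    exact h1
  have c2 : Fintype.card {i // q i = -1} = s := by
    have e1 : ((-1 : ℤ) : ℂ) = -1 := by norm_num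
    rw [hρ (-1), e1]
    exact h2
  obtain ⟨l, z, v, hd, htop, hpar⟩ := exists_d3_topO B hirr' hfaith hnd hsk' q hq hq3 hs c1 c2 (by rw [hcard]; exact h2s)
  rw [hcard] at hd
  have ht := hE _ _ l z v hd htop (hpar halt)
  rw [← XS_eq, ← PF.C.PhiS_eq] at ht
  exact PF.C.typeD_sp B hirr' ht hnd halt hsk' hx

end LT
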