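import Pool.Agent.Helper43.BL2.Typ

/-!
Project L2 (MP_b8862a_ag): three numbers `a`, `b`, `c` of a block that need not be self-dual, from the core statement.
-/

set_option linter.unusedSectionVars false
set_option linter.unusedVariables false

open Matrix Module GH OW

attribute [local instance 100] LieRing.ofAssociativeRing

namespace MH

/-- The core statement in dimension `r` for the numbers `a`, `b`, `c`: a simple irreducible Lie algebra with an element with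
three eigenvalues `t + 1`, `t`, `t - 1` of multiplicities `a`, `b`, `c` consists of all endomorphisms of trace zero, or of all
those that are skew for a symmetric or alternating form, and `9 ≤ r`. -/
def Core3 (r a b c : ℕ) : Prop := ∀ (L : LieSubalgebra ℂ (Module.End ℂ (Fin r → ℂ))) [LieAlgebra.IsSimple ℂ L],
  (∀ W : Submodule ℂ (Fin r → ℂ), (∀ x ∈ L, ∀ u ∈ W, x u ∈ W) → W = ⊥ ∨ W = ⊤) →
  ∀ (q : Module.End ℂ (Fin r → ℂ)) (t : ℝ), q ∈ L → q ≠ 0 →
  Module.End.eigenspace q ((t : ℂ) + 1) ⊔ Module.End.eigenspace q (t : ℂ) ⊔ Module.End.eigenspace q ((t : ℂ) - 1) = ⊤ →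
  finrank ℂ (Module.End.eigenspace q ((t : ℂ) + 1)) = a → finrank ℂ (Module.End.eigenspace q (t : ℂ)) = b →
  finrank ℂ (Module.End.eigenspace q ((t : ℂ) - 1)) = c →
  (∀ x : Module.End ℂ (Fin r → ℂ), LinearMap.trace ℂ _ x = 0 → x ∈ L) ∨
  (9 ≤ r ∧ ∃ ω : LinearMap.BilinForm ℂ (Fin r → ℂ), (ω.IsSymm ∨ ω.IsAlt) ∧ ω.Nondegenerate ∧
      ∀ x : Module.End ℂ (Fin r → ℂ), x ∈ L ↔ ∀ u v, ω (x u) v = -ω u (x v))

/-- the abstract condition on a block with three numbers `a`, `b`, `c` in the degrees `i`, `(i + j) / 2`, `j` (`b = 0` is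
allowed, `i + j` may be odd then) -/
def Cr3 (r : ℕ) (h : ℤ → ℕ) : Prop := IndecU h ∧ ∃ i j : ℤ, i ≠ j ∧
  (∀ p, p ≠ i → p ≠ j → 2 * p ≠ i + j → h p = 0) ∧ Core3 r (h i) (r - h i - h j) (h j)

/-- **A simple irreducible Lie algebra of matrices, by the core statement for three numbers.** -/
theorem mat_core3 {r : ℕ} (hr : 2 ≤ r) {L : Submodule ℂ (Matrix (Fin r) (Fin r) ℂ)}
    (hbr : ∀ X ∈ L, ∀ Y ∈ L, X * Y - Y * X ∈ L)
    (hirr : ∀ W : Submodule ℂ (Fin r → ℂ), (∀ X ∈ L, ∀ w ∈ W, X *ᵥ w ∈ W) → W = ⊥ ∨ W = ⊤) (hs : Smp L)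
    {h : Matrix (Fin r) (Fin r) ℂ} (hh : h ∈ L) (h0 : h ≠ 0) {E : ℝ → Matrix (Fin r) (Fin r) ℂ} {Λ : Finset ℝ}
    (hE : SD h E Λ) {k u : ℝ} (hk : k ≠ 0) (hμ : ∀ μ, E μ ≠ 0 → μ = u + k ∨ μ = u ∨ μ = u - k)
    (hc : Core3 r (E (u + k)).rank (E u).rank (E (u - k)).rank) :
    (∀ x : Matrix (Fin r) (Fin r) ℂ, x.trace = 0 → x ∈ L) ∨
      (9 ≤ r ∧ ∃ F Fi : Matrix (Fin r) (Fin r) ℂ, F * Fi = 1 ∧ Fi * F = 1 ∧ (Fᵀ = F ∨ Fᵀ = -F) ∧
        ∀ x, x ∈ L ↔ xᵀ * F + F * x = 0) := by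
  classical
  have hcard : 2 ≤ Fintype.card (Fin r) := by rw [Fintype.card_fin]; exact hr
  have := lieOf_simple (hbr := hbr) hirr hcard hs
  have hmem : ∀ x : Matrix (Fin r) (Fin r) ℂ, Matrix.toLin' x ∈ lieOf L hbr ↔ x ∈ L := by
    intro x
    rw [mem_lieOf, LinearMap.toMatrix'_toLin']
  have hkC : (k : ℂ) ≠ 0 := by exact_mod_cast hk
  have key : ∀ μ : ℝ, Module.End.eigenspace ((k : ℂ)⁻¹ • Matrix.toLin' h) ((μ / k : ℝ) : ℂ) =
      Module.End.eigenspace (Matrix.toLin' h) (μ : ℂ) := by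
    intro μ
    ext v
    rw [Module.End.mem_eigenspace_iff, Module.End.mem_eigenspace_iff, LinearMap.smul_apply]
    constructor
    · intro h1
      have h2 := congrArg (fun u => (k : ℂ) • u) h1
      simp only [smul_smul] at h2
      rw [mul_inv_cancel₀ hkC, one_smul] at h2
      rw [h2]
      congr 1
      push_cast
      field_simp
    · intro h1
      rw [h1, smul_smul]
      congr 1
      push_cast
      field_simp
  have k1 := key (u + k)
  have k2 := key u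
  have k3 := key (u - k)
  rw [show (((u + k) / k : ℝ) : ℂ) = ((u / k : ℝ) : ℂ) + 1 by push_cast; field_simp] at k1
  rw [show (((u - k) / k : ℝ) : ℂ) = ((u / k : ℝ) : ℂ) - 1 by push_cast; field_simp] at k3
  have hsup : Module.End.eigenspace ((k : ℂ)⁻¹ • Matrix.toLin' h) (((u / k : ℝ) : ℂ) + 1) ⊔
      Module.End.eigenspace ((k : ℂ)⁻¹ • Matrix.toLin' h) ((u / k : ℝ) : ℂ) ⊔
      Module.End.eigenspace ((k : ℂ)⁻¹ • Matrix.toLin' h) (((u / k : ℝ) : ℂ) - 1) = ⊤ := by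
    rw [k1, k2, k3, eq_top_iff]
    intro v _
    have h3 : v = ∑ ν ∈ Λ, E ν *ᵥ v := by
      rw [← Matrix.sum_mulVec, hE.sum, Matrix.one_mulVec]
    rw [h3]
    refine Submodule.sum_mem _ fun ν _ => ?_
    by_cases hν : E ν = 0
    · rw [hν, Matrix.zero_mulVec]
      exact Submodule.zero_mem _
    have h4 : E ν *ᵥ v ∈ Module.End.eigenspace (Matrix.toLin' h) (ν : ℂ) := by
      rw [hE.eig98]
      exact ⟨v, by rw [Matrix.toLin'_apply]⟩
    rcases hμ ν hν with rfl | rfl | rfl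
    · exact Submodule.mem_sup_left (Submodule.mem_sup_left h4)
    · exact Submodule.mem_sup_left (Submodule.mem_sup_right h4)
    · exact Submodule.mem_sup_right h4
  have hq0 : (k : ℂ)⁻¹ • Matrix.toLin' h ≠ 0 := by
    intro h5
    rcases smul_eq_zero.1 h5 with h6 | h6
    · exact inv_ne_zero hkC h6
    · exact h0 ((LinearEquiv.map_eq_zero_iff _).1 h6)
  have hqL : (k : ℂ)⁻¹ • Matrix.toLin' h ∈ lieOf L hbr := (lieOf L hbr).smul_mem _ ((hmem h).2 hh)
  rcases hc (lieOf L hbr) (lieOf_irr hirr) _ (u / k) hqL hq0 hsup (by rw [k1, hE.finrank_eig98])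
    (by rw [k2, hE.finrank_eig98]) (by rw [k3, hE.finrank_eig98]) with h3 | ⟨h9, ω, hω, hnd, hmω⟩
  · left
    intro x hx
    rw [← hmem]
    apply h3
    rw [Matrix.trace_toLin'_eq]
    exact hx
  · right
    obtain ⟨F, hF⟩ : ∃ F, F = LinearMap.toMatrix₂' ℂ ω := ⟨_, rfl⟩
    have hFω : Matrix.toBilin' F = ω := by
      rw [hF]
      exact Matrix.toBilin'_toMatrix' ω
    have hdet : F.det ≠ 0 := by
      rw [← hFω] at hnd
      exact (LinearMap.BilinForm.nondegenerate_toBilin'_iff_det_ne_zero).1 hnd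
    have hu : IsUnit F := (Matrix.isUnit_iff_isUnit_det F).2 hdet.isUnit
    obtain ⟨⟨F0, Fi, f1, f2⟩, hF0⟩ := hu
    change F0 = F at hF0
    subst hF0
    refine ⟨h9, F0, Fi, f1, f2, ?_, ?_⟩
    · have e1 : ∀ i j, F0 i j = ω (Pi.single i 1) (Pi.single j 1) := by
        intro i j
        rw [hF]
        exact LinearMap.toMatrix₂'_apply _ _ _
      rcases hω with hω | hω
      · left
        ext i j
        rw [Matrix.transpose_apply, e1, e1]
        exact hω.eq _ _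
      · right
        ext i j
        rw [Matrix.transpose_apply, Matrix.neg_apply, e1, e1]
        exact (hω.neg_eq _ _).symm
    · intro x
      rw [← hmem, hmω, skew_iff98, hFω]
      simp only [Matrix.toLin'_apply]

/-- the three multiplicities add up to the dimension -/
theorem SD.sum3 {n : Type*} [Fintype n] [DecidableEq n] {h : Matrix n n ℂ} {E : ℝ → Matrix n n ℂ} {Λ : Finset ℝ}
    (hE : SD h E Λ) {k u : ℝ} (hk : k ≠ 0) (hμ : ∀ μ, E μ ≠ 0 → μ = u + k ∨ μ = u ∨ μ = u - k) :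
    (E (u + k)).rank + (E u).rank + (E (u - k)).rank = Fintype.card n := by
  classical
  have hEE : ∀ μ, E μ * E μ = E μ := fun μ => by rw [hE.mul, if_pos rfl]
  have h1 := congrArg Matrix.trace hE.sum
  rw [Matrix.trace_sum, Matrix.trace_one, Finset.sum_congr rfl fun μ _ => trace_eq_rank (hEE μ)] at h1
  have h2 : ∑ μ ∈ Λ, (E μ).rank = Fintype.card n := by exact_mod_cast h1
  have hout : ∀ μ, μ ∉ Λ → E μ = 0 := by
    intro μ hμ'
    have h3 : E μ * ∑ ν ∈ Λ, E ν = E μ := by rw [hE.sum, mul_one]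
    rw [Finset.mul_sum, Finset.sum_eq_zero fun ν hν => by
      rw [hE.mul, if_neg (by
        intro h4
        rw [h4] at hμ'
        exact hμ' hν)]] at h3
    exact h3.symm
  have h3 : ∑ μ ∈ Λ, (E μ).rank = ∑ μ ∈ ({u + k, u, u - k} : Finset ℝ), (E μ).rank := by
    have h4 : ∑ μ ∈ Λ, (E μ).rank = ∑ μ ∈ Λ ∪ {u + k, u, u - k}, (E μ).rank :=
      Finset.sum_subset Finset.subset_union_left fun μ _ h => by rw [hout μ h, Matrix.rank_zero]
    rw [h4]
    refine (Finset.sum_subset Finset.subset_union_right fun μ _ h => ?_).symm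
    by_contra hne
    apply h
    have h4 : E μ ≠ 0 := fun h5 => hne (by rw [h5, Matrix.rank_zero])
    simpa using hμ μ h4
  rw [h2, Finset.sum_insert, Finset.sum_insert, Finset.sum_singleton] at h3
  · omega
  · intro h4
    rw [Finset.mem_singleton] at h4
    exact hk (by linarith)
  · intro h4
    simp only [Finset.mem_insert, Finset.mem_singleton] at h4
    rcases h4 with h4 | h4
    · exact hk (by linarith)
    · exact hk (by linarith)

variable {n : Type*} [Fintype n] [DecidableEq n]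
variable {w : ℤ} {Q : Matrix n n ℚ} {S : Finset ℤ} {P : ℤ → Matrix n n ℂ} {Γ : Subgroup (GL n ℂ)}
variable {r : ℕ} {W : Matrix n (Fin r) ℂ} {V : Matrix (Fin r) n ℂ} {e : Matrix n n ℂ}

/-- a block with simple Lie algebra and three numbers, by the core statement -/
theorem IsGalU.full_core3 (G : IsGalU w Q S P Γ) (he : IsBlk P e) (hVW : V * W = 1)
    (hWV : W * V = e) (hr : 2 ≤ r)
    (hirr : ∀ U : Submodule ℂ (Fin r → ℂ), (∀ y ∈ cpL W V (LG Γ), ∀ u ∈ U, y *ᵥ u ∈ U) → U = ⊥ ∨ U = ⊤)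
    (hs : Smp (T0 (cpS W V (LG Γ)))) {S1 : Finset ℤ} {R1 : ℤ → Matrix n n ℂ} (hR1 : IsHTw w Q S1 Γ R1)
    (hns : ∀ p, (e * R1 p).rank ≠ r) (hN : Cr3 r (fun p => (e * R1 p).rank)) : TyN (cpS W V (LG Γ)) := by
  classical
  obtain ⟨hI, i, j, hij, h0', hcore⟩ := hN
  have hr' : 0 < r := by omega
  have hne : Nonempty (Fin r) := ⟨⟨0, hr'⟩⟩
  obtain ⟨t, E, Λ, ht, hSD, hint, hEr⟩ := exists_sh43 G he hVW hWV hr' hR1
  have h0 := sh_ne43 G he hVW hWV hr' hR1 hns t
  obtain ⟨k, hk⟩ : ∃ k : ℝ, k = ((i : ℝ) - j) / 2 := ⟨_, rfl⟩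
  obtain ⟨u, hu⟩ : ∃ u : ℝ, u = ((i : ℝ) + j) / 2 - t := ⟨_, rfl⟩
  have hijR : (i : ℝ) - j ≠ 0 := sub_ne_zero.2 (by exact_mod_cast hij)
  have hkR : k ≠ 0 := by
    rw [hk]
    exact div_ne_zero hijR two_ne_zero
  have e1 : (i : ℝ) - t = u + k := by rw [hu, hk]; ring
  have e2 : (j : ℝ) - t = u - k := by rw [hu, hk]; ring
  have hμ : ∀ μ, E μ ≠ 0 → μ = u + k ∨ μ = u ∨ μ = u - k := by
    intro μ hμ0
    obtain ⟨p, hp⟩ := hint μ hμ0
    by_cases h1 : p = i
    · left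
      rw [hp, h1, e1]
    by_cases h2 : 2 * p = i + j
    · right
      left
      have h3 : 2 * (p : ℝ) = i + j := by exact_mod_cast h2
      rw [hp, hu]
      linarith
    by_cases h3 : p = j
    · right
      right
      rw [hp, h3, e2]
    exfalso
    have h4 : (e * R1 p).rank = 0 := h0' p h1 h3 h2
    rw [← hEr p, ← hp] at h4
    exact hμ0 (rank_eq_zero98 h4)
  have hsum := hSD.sum3 hkR hμ
  rw [Fintype.card_fin] at hsum
  have r1 : (E (u + k)).rank = (e * R1 i).rank := by rw [← e1, hEr]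
  have r2 : (E (u - k)).rank = (e * R1 j).rank := by rw [← e2, hEr]
  have hc : Core3 r (E (u + k)).rank (E u).rank (E (u - k)).rank := by
    have h3 : (E u).rank = r - (e * R1 i).rank - (e * R1 j).rank := by omega
    rw [r1, r2, h3]
    exact hcore
  rcases mat_core3 hr (T0_br G he hVW hWV) (T0_irr hr' hirr) hs ht h0 hSD hkR hμ hc with hsl | ⟨h9, F, Fi, f1, f2, hF, hm⟩
  · have h3 : ∀ x : Matrix (Fin r) (Fin r) ℂ, x.trace = 0 → x ∈ cpS W V (LG Γ) := fun x hx => (mem_T0.1 (hsl x hx)).1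
    exact ⟨Or.inl h3, Or.inl h3⟩
  · refine ⟨Or.inr ⟨F, hF, ⟨⟨F, Fi, f1, f2⟩, rfl⟩, fun x hx => (mem_T0.1 ((hm x).2 hx)).1, fun y hy => ?_⟩, Or.inr ?_⟩
    · refine ⟨2 * (y.trace / r), ?_⟩
      have e1 := (hm _).1 (T0_dec hr' hy)
      rw [Matrix.transpose_sub, Matrix.transpose_smul, Matrix.transpose_one, Matrix.sub_mul, Matrix.mul_sub,
        Matrix.smul_mul, Matrix.mul_smul, Matrix.one_mul, Matrix.mul_one] at e1
      rw [mul_smul, two_smul, ← sub_eq_zero, ← e1]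
      abel
    · rw [Fintype.card_fin]
      exact h9

end MH
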