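import Pool.Agent.Helper43.BL2.Typ
import Pool.Agent.Helper43.L2.TopO

/-!
Project L2 (MP_b8862a_ag): three numbers `s, h, s` of a block of symplectic type (even weight).
-/

set_option linter.unusedSectionVars false
set_option linter.unusedVariables false

open Matrix Module GH OW

attribute [local instance 100] LieRing.ofAssociativeRing

namespace MH

/-- The core statement for alternating forms. -/
def CoreA (n : Type*) [Fintype n] [DecidableEq n] (w : ℤ) (r : ℤ → ℕ) : Prop :=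
  ∀ Q' Qi : Matrix n n ℂ, Q'ᵀ = -Q' → Q' * Qi = 1 → Qi * Q' = 1 →
    ∀ L : Submodule ℂ (Matrix n n ℂ), (∀ X ∈ L, ∀ Y ∈ L, X * Y - Y * X ∈ L) →
      (∀ W : Submodule ℂ (n → ℂ), (∀ X ∈ L, ∀ w ∈ W, X *ᵥ w ∈ W) → W = ⊥ ∨ W = ⊤) →
      (∀ X ∈ L, Xᵀ * Q' + Q' * X = 0) → Smp L →
    ∀ (h : Matrix n n ℂ) (E : ℝ → Matrix n n ℂ) (Λ : Finset ℝ), h ∈ L → SD h E Λ →
      (∀ μ : ℝ, E μ ≠ 0 → ∃ p : ℤ, μ = ((2 * p - w : ℤ) : ℝ)) →
      (∀ p : ℤ, (E ((2 * p - w : ℤ) : ℝ)).rank = r p) →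
    ∀ X : Matrix n n ℂ, Xᵀ * Q' + Q' * X = 0 → X ∈ L

/-- the abstract condition on a block of symplectic type -/
def CrA (w : ℤ) (r : ℕ) (h : ℤ → ℕ) : Prop :=
  NI.Indec w h ∧ 9 ≤ r ∧ ((∀ p, h p ≠ r) → CoreA (Fin r) w h)

section blk

variable {n : Type*} [Fintype n] [DecidableEq n]
variable {w : ℤ} {Q : Matrix n n ℚ} {S : Finset ℤ} {P : ℤ → Matrix n n ℂ} {Γ : Subgroup (GL n ℂ)}
variable {r : ℕ} {W : Matrix n (Fin r) ℂ} {V : Matrix (Fin r) n ℂ} {e : Matrix n n ℂ}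

/-- a block with simple Lie algebra and an alternating form, by the core statement -/
theorem IsGalU.full_coreA43 (H : IsHW w Q S P) (G : IsGalU w Q S P Γ) (he : IsBlk P e) (hVW : V * W = 1)
    (hWV : W * V = e)
    (hirr : ∀ U : Submodule ℂ (Fin r → ℂ), (∀ y ∈ cpL W V (LG Γ), ∀ u ∈ U, y *ᵥ u ∈ U) → U = ⊥ ∨ U = ⊤) (h9 : 9 ≤ r)
    (hs : Smp (T0 (cpS W V (LG Γ)))) {x : Matrix n n ℂ} (hx : x ∈ EC P) (hx0 : eᵀ * (toC Q * x) * e ≠ 0)
    {S1 : Finset ℤ} {R1 : ℤ → Matrix n n ℂ} (hR1 : IsHTw w Q S1 Γ R1)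
    (hxs : xᵀ * toC Q = -(toC Q * x)) (hQs : (toC Q)ᵀ = toC Q) (hcore : CoreA (Fin r) w (fun p => (e * R1 p).rank)) :
    TyN (cpS W V (LG Γ)) := by
  have hr' : 0 < r := by omega
  obtain ⟨F, Fi, hF, hF1, hF2, hFs, hFL, hFh⟩ := G.exists_form43 H he hVW hWV hirr hr' hx hx0
  obtain ⟨t, _, _, ht, -, -, -⟩ := exists_sh43 G he hVW hWV hr' hR1
  obtain ⟨E, Λ, k1, k2, k3, -⟩ := exists_shW43 G he hVW hWV hr' hF1 hF2 hR1 (hFh _ _ hR1) ht
  have hfull : ∀ X : Matrix (Fin r) (Fin r) ℂ, Xᵀ * F + F * X = 0 → X ∈ cpS W V (LG Γ) := by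
    intro X hX
    have hFs' : Fᵀ = -F := by
      have h1 : Fᵀ = Wᵀ * (xᵀ * toC Q) * W := by
        rw [hF, Matrix.transpose_mul, Matrix.transpose_mul, Matrix.transpose_transpose, Matrix.transpose_mul, hQs,
          ← Matrix.mul_assoc]
      rw [h1, hxs, Matrix.mul_neg, Matrix.neg_mul, ← hF]
    exact (mem_T0.1 (hcore F Fi hFs' hF1 hF2 _ (T0_br G he hVW hWV) (T0_irr hr' hirr)
      (fun Y hY => T0_skew hr' hF1 hF2 hFL hY) hs _ E Λ (Submodule.smul_mem _ _ ht) k1 k2 k3 X hX)).1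
  refine ⟨Or.inr ⟨F, hFs, ⟨⟨F, Fi, hF1, hF2⟩, rfl⟩, hfull, hFL⟩, Or.inr ?_⟩
  rw [Fintype.card_fin]
  exact h9

end blk

end MH

namespace LT

/-- As `MH.CoreA`, even weight `2 m`, for Lie algebras of endomorphisms. -/
def CoreA43 (n : Type*) [Fintype n] (m : ℤ) (r : ℤ → ℕ) (S : Finset ℤ) : Prop :=
  ∀ ω : LinearMap.BilinForm ℂ (n → ℂ), ω.IsAlt → ω.Nondegenerate →
    ∀ L : LieSubalgebra ℂ (Module.End ℂ (n → ℂ)), LieAlgebra.IsSimple ℂ L →
    (∀ W : Submodule ℂ (n → ℂ), (∀ x ∈ L, ∀ u ∈ W, x u ∈ W) → W = ⊥ ∨ W = ⊤) →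
    (∀ x ∈ L, ∀ u v, ω (x u) v = -ω u (x v)) →
    ∀ h ∈ L, (⨆ p ∈ S, Module.End.eigenspace h ((p - m : ℤ) : ℂ)) = ⊤ →
      (∀ p ∈ S, finrank ℂ (Module.End.eigenspace h ((p - m : ℤ) : ℂ)) = r p) →
      ∀ x : Module.End ℂ (n → ℂ), (∀ u v, ω (x u) v = -ω u (x v)) → x ∈ L

open MH in
theorem CoreA43.core {n : Type*} [Fintype n] [DecidableEq n] {m : ℤ} {r : ℤ → ℕ} {S : Finset ℤ} (core : CoreA43 n m r S)
    (h2 : 2 ≤ Fintype.card n) (hS : ∀ p, p ∉ S → r p = 0) : MH.CoreA n (2 * m) r := by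
  intro Q' Qi hQ hQ1 hQ2 L hbr hirr hsk hs h E Λ hh hE hint hr X hX
  have hsa : (Matrix.toBilin' Q').IsAlt := by
    intro u
    have h3 := form_alt98 hQ u u
    have h4 : (2 : ℂ) * Matrix.toBilin' Q' u u = 0 := by linear_combination h3
    exact (mul_eq_zero.1 h4).resolve_left two_ne_zero
  have hE2 : ∀ p : ℤ, Module.End.eigenspace ((2 : ℂ)⁻¹ • Matrix.toLin' h) ((p - m : ℤ) : ℂ) =
      Module.End.eigenspace (Matrix.toLin' h) ((((2 * p - 2 * m : ℤ) : ℝ)) : ℂ) := by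
    intro p
    ext v
    rw [Module.End.mem_eigenspace_iff, Module.End.mem_eigenspace_iff, LinearMap.smul_apply]
    constructor
    · intro h1
      have h2 := congrArg (fun u => (2 : ℂ) • u) h1
      simp only [smul_smul] at h2
      rw [mul_inv_cancel₀ two_ne_zero, one_smul] at h2
      rw [h2]
      congr 1
      push_cast
      ring
    · intro h1
      rw [h1, smul_smul]
      congr 1
      push_cast
      ring
  have hsup : (⨆ p ∈ S, Module.End.eigenspace ((2 : ℂ)⁻¹ • Matrix.toLin' h) ((p - m : ℤ) : ℂ)) = ⊤ := by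
    rw [eq_top_iff]
    intro v _
    have h3 : v = ∑ ν ∈ Λ, E ν *ᵥ v := by
      rw [← Matrix.sum_mulVec, hE.sum, Matrix.one_mulVec]
    rw [h3]
    refine Submodule.sum_mem _ fun ν _ => ?_
    by_cases hν : E ν = 0
    · rw [hν, Matrix.zero_mulVec]
      exact Submodule.zero_mem _
    obtain ⟨p, hp⟩ := hint ν hν
    have hpS : p ∈ S := by
      by_contra hcon
      have h5 := hS p hcon
      rw [← hr p, ← hp] at h5
      apply hν
      have h6 : (E ν).rank = 0 := h5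
      rw [Matrix.rank, Submodule.finrank_eq_zero, LinearMap.range_eq_bot] at h6
      exact (LinearEquiv.map_eq_zero_iff Matrix.toLin').1 h6
    have h4 : E ν *ᵥ v ∈ Module.End.eigenspace ((2 : ℂ)⁻¹ • Matrix.toLin' h) ((p - m : ℤ) : ℂ) := by
      rw [hE2, ← hp, hE.eig98]
      exact ⟨v, by rw [Matrix.toLin'_apply]⟩
    exact Submodule.mem_iSup_of_mem p (Submodule.mem_iSup_of_mem hpS h4)
  have hrk : ∀ p ∈ S, finrank ℂ (Module.End.eigenspace ((2 : ℂ)⁻¹ • Matrix.toLin' h) ((p - m : ℤ) : ℂ)) = r p := by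
    intro p _
    rw [hE2, hE.finrank_eig98, hr]
  have h4 : Matrix.toLin' X ∈ lieOf L hbr := by
    refine core (Matrix.toBilin' Q') hsa (form_nondeg98 hQ1) (lieOf L hbr) (lieOf_simple hirr h2 hs)
      (lieOf_irr hirr) (lieOf_sk hsk) _ ((lieOf L hbr).smul_mem _ (toLin_mem_lieOf hh)) hsup hrk _ fun u v => ?_
    rw [Matrix.toLin'_apply, Matrix.toLin'_apply]
    exact skew_iff98.1 hX u v
  rw [mem_lieOf, LinearMap.toMatrix'_toLin'] at h4
  exact h4

/-- `CoreA` for three Hodge numbers `s, h, s` outside a list. -/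
theorem coreA_lt43 (n : Type) [Fintype n] {a b c : ℤ} (hab : a + b = 2 * c) (hca : c < a) {r : ℤ → ℕ}
    {S : Finset ℤ} (hS : ∀ p, p ∉ S → r p = 0) (hr : ∀ p, p ≠ a → p ≠ c → p ≠ b → r p = 0) (hba : r b = r a)
    (hs : 0 < r a) (hh : 0 < r c) (hn : Fintype.card n = 2 * r a + r c) (h5 : 5 ≤ Fintype.card n)
    (hE : ∀ {ι : Type} [Fintype ι] (Φ X : Finset (EuclideanSpace ℝ ι)) (l y v : EuclideanSpace ℝ ι),
      AG.D3 Φ X (Fintype.card n) (r a) l y v → Top Φ X l v → (∃ k : ℤ, ∑ a ∈ PW.Ps Φ v, PF.co a l = 2 * (k : ℝ) + 1) →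
        PF.TypeD Φ X) :
    CoreA43 n c r S := by
  classical
  intro ω hω hnd L hL hirr hsk h hhL hsup hrk x hx'
  have hcard : finrank ℂ (n → ℂ) = Fintype.card n := Module.finrank_fintype_fun_eq_card ℂ
  obtain ⟨δ, hδ⟩ : ∃ δ : ℤ, δ = a - c := ⟨_, rfl⟩
  have hδ0 : 0 < δ := by omega
  have hδC : (δ : ℂ) ≠ 0 := by exact_mod_cast hδ0.ne'
  have key : ∀ k : ℤ, Module.End.eigenspace ((δ : ℂ)⁻¹ • h) (k : ℂ) =
      Module.End.eigenspace h ((δ * k : ℤ) : ℂ) := by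
    intro k
    ext v
    rw [Module.End.mem_eigenspace_iff, Module.End.mem_eigenspace_iff, LinearMap.smul_apply]
    constructor
    · intro h1
      have h2 := congrArg (fun u => (δ : ℂ) • u) h1
      simp only [smul_smul] at h2
      rw [mul_inv_cancel₀ hδC, one_smul] at h2
      rw [h2]
      congr 1
      push_cast
      ring
    · intro h1
      rw [h1, smul_smul]
      congr 1
      push_cast
      field_simp
  have haS : a ∈ S := by
    by_contra hcon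
    have := hS a hcon
    omega
  have hbS : b ∈ S := by
    by_contra hcon
    have := hS b hcon
    omega
  have ea : a - c = δ * 1 := by omega
  have eb : b - c = δ * (-1) := by omega
  have ec : c - c = δ * 0 := by omega
  have k1 := key 1
  have k0 := key 0
  have km := key (-1)
  rw [← ea, Int.cast_one] at k1
  rw [← ec, Int.cast_zero] at k0
  rw [← eb] at km
  have e1 : ((-1 : ℤ) : ℂ) = -1 := by norm_num
  rw [e1] at km
  refine core_ltO hω hnd hL hirr hsk ((δ : ℂ)⁻¹ • h) (L.smul_mem _ hhL) hs (by omega) (by omega) ?_ ?_ ?_ ?_ x hx'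
  · rw [eq_top_iff, ← hsup]
    refine iSup₂_le fun p hp => ?_
    by_cases h1 : p = a
    · subst h1
      rw [k1]
      exact le_sup_of_le_left le_sup_left
    · by_cases h2 : p = b
      · subst h2
        rw [km]
        exact le_sup_right
      · by_cases h3 : p = c
        · subst h3
          rw [k0]
          exact le_sup_of_le_left le_sup_right
        · have h4 := hrk p hp
          rw [hr p h1 h3 h2, Submodule.finrank_eq_zero] at h4
          rw [h4]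
          exact bot_le
  · rw [k1, hrk a haS]
  · rw [km, hrk b hbS, hba]
  · intro ι _ Φ X l y v hd ht hp
    rw [hcard] at hd
    exact hE Φ X l y v hd ht hp

/-- **The core for three numbers `s, h, s`, even weight, alternating forms**, from the list of the exceptions. -/
theorem core_ltA3 {n : Type} [Fintype n] [DecidableEq n] {a b c : ℤ} (hab : a + b = 2 * c) (hca : c < a) {r : ℤ → ℕ}
    (hr : ∀ p, p ≠ a → p ≠ c → p ≠ b → r p = 0) (hba : r b = r a) (hs : 0 < r a) (hh : 0 < r c)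
    (hn : Fintype.card n = 2 * r a + r c) (h5 : 5 ≤ Fintype.card n)
    (hE : ∀ {ι : Type} [Fintype ι] (Φ X : Finset (EuclideanSpace ℝ ι)) (l y v : EuclideanSpace ℝ ι),
      AG.D3 Φ X (Fintype.card n) (r a) l y v → Top Φ X l v → (∃ k : ℤ, ∑ a ∈ PW.Ps Φ v, PF.co a l = 2 * (k : ℝ) + 1) →
        PF.TypeD Φ X) :
    MH.CoreA n (2 * c) r := by
  have hS : ∀ p, p ∉ ({a, c, b} : Finset ℤ) → r p = 0 := by
    intro p hp
    simp only [Finset.mem_insert, Finset.mem_singleton, not_or] at hp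
    exact hr p hp.1 hp.2.1 hp.2.2
  exact CoreA43.core (S := {a, c, b}) (coreA_lt43 n hab hca hS hr hba hs hh hn h5 hE) (by omega) hS

end LT
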