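import Pool.Agent.Helper43.BL2.Fam2
import Pool.Agent.Helper43.L2.Core3
import Pool.Agent.Helper43.L2.CoreA
import Pool.Agent.Helper43.L2.Defs

/-!
Project L2 (MP_b8862a_ag): the type of a block with three numbers, from a family of Hodge-Tate decompositions. The lists `XU`
(any block) and `XS` (symplectic blocks) are parameters.
-/

set_option linter.unusedSectionVars false
set_option linter.unusedVariables false

open Matrix Module GH OW

namespace MH

variable {n : Type*} [Fintype n] [DecidableEq n]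
variable {w : ℤ} {Q : Matrix n n ℚ} {S : Finset ℤ} {P : ℤ → Matrix n n ℂ} {Γ : Subgroup (GL n ℂ)}
variable {r : ℕ} {W : Matrix n (Fin r) ℂ} {V : Matrix (Fin r) n ℂ} {e : Matrix n n ℂ}
variable {ι : Type*} {T : ι → Finset ℤ} {R : ι → ℤ → Matrix n n ℂ}

theorem SympB.self43 (h : SympB Q P e) : SelfB Q P e := by
  obtain ⟨x, hx, -, h0⟩ := h
  exact ⟨x, hx, h0⟩

/-- The condition on a block at one Hodge-Tate decomposition. -/
def CaseL (w : ℤ) (Q : Matrix n n ℚ) (P : ℤ → Matrix n n ℂ) (r : ℕ) (S1 : Finset ℤ) (R1 : ℤ → Matrix n n ℂ)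
    (e : Matrix n n ℂ) : Prop :=
  CaseN w Q P r S1 R1 e ∨ Cr3 r (fun p => (e * R1 p).rank) ∨
    ∃ m : ℤ, w = 2 * m ∧ SympB Q P e ∧ CrA w r (fun p => (e * R1 p).rank)

/-- **the type of a block** -/
theorem IsHF.tyL43 (H : IsHW w Q S P) (F : IsHF w Q P Γ T R) (G : IsGalU w Q S P Γ) (he : IsBlk P e) (hVW : V * W = 1)
    (hWV : W * V = e) (hr : 2 ≤ r) {i0 : ι} (hC : CaseL w Q P r (T i0) (R i0) e)
    (hN : (∀ i, NoF (fun p => (e * R i0 p).rank) (fun p => (e * R i p).rank)) ∨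
      SelfB Q P e ∧ ∀ i, NoFS w (fun p => (e * R i0 p).rank) (fun p => (e * R i p).rank)) : TyN (cpS W V (LG Γ)) := by
  classical
  have hr' : 0 < r := by omega
  have hirr := F.irr43 G he hVW hWV
  have hns := F.ns_of43 H G he hVW hWV hr hN
  have hR1 := F.ht i0
  rcases hC with hC | hcr | ⟨m, hm, hO, hI, h9, hcore⟩
  · exact F.tyN43 H G he hVW hWV hr hC hN
  · obtain ⟨t, ht, hDch⟩ := dch_blkU G he hVW hWV hirr hr' hR1 hcr.1
    have hs := F.smp43 H G he hVW hWV hr ht hDch hN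
    exact G.full_core3 he hVW hWV hr hirr hs hR1 hns hcr
  · obtain ⟨t, ht, hDch⟩ := dch_blkW H G he hVW hWV hirr hr' hO.self43 hR1 hI
    have hs := F.smp43 H G he hVW hWV hr ht hDch hN
    have hQs : (toC Q)ᵀ = toC Q := by
      rw [H.Q_symm, hm, _root_.zpow_mul]
      norm_num
    obtain ⟨x, hx, hxs, hx0⟩ := hO
    exact G.full_coreA43 H he hVW hWV hirr h9 hs hx hx0 hR1 hxs hQs (hcore hns)

/-- The block `e` and the conjugate block `f` with three numbers `a`, `b`, `c` in the degrees `i`, `(i + j) / 2`, `j`. -/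
def ThreeP (XU : ℕ → ℕ → ℕ → Prop) (XS : ℕ → ℕ → Prop) (Q : Matrix n n ℚ) (P : ℤ → Matrix n n ℂ)
    (e f : Matrix n n ℂ) : Prop :=
  ∃ (i j : ℤ) (a b c : ℕ), (f * P i).rank = a ∧ (f * P j).rank = c ∧ 0 < a ∧ 0 < c ∧ e.rank = a + b + c ∧
    (∀ p, p ≠ i → p ≠ j → 2 * p ≠ i + j → f * P p = 0) ∧
    (IndB (fun p => (f * P p).rank) ∧ (a ≠ c ∨ 9 ≤ e.rank ∧ 0 < b) ∧ ¬ XU a b c ∨
      9 ≤ e.rank ∧ 0 < b ∧ (OrthB Q P e ∧ ¬ LT.Exc a b ∨ SympB Q P e ∧ ¬ XS a b))

/-- The condition on the conjugate by `σ` of the block `e`. -/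
def GoodP (XU : ℕ → ℕ → ℕ → Prop) (XS : ℕ → ℕ → Prop) (E E' : Set ℕ) (w : ℤ) (Q : Matrix n n ℚ) (S : Finset ℤ)
    (P : ℤ → Matrix n n ℂ) (e : Matrix n n ℂ) (σ : ℂ ≃+* ℂ) : Prop :=
  ThreeP XU XS Q P e (e.map σ) ∨ RankB E E' w Q P e σ ∨ DomB w Q S P (e.map σ)

variable {XU : ℕ → ℕ → ℕ → Prop} {XS : ℕ → ℕ → Prop}

/-- the hypothesis on the list for any block -/
def GoodXU (XU : ℕ → ℕ → ℕ → Prop) : Prop :=
  ∀ {r a b c : ℕ}, 0 < a → 0 < c → (a ≠ c ∨ 9 ≤ r ∧ 0 < b) → ¬ XU a b c → Core3 r a b c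

/-- the hypothesis on the list for the symplectic blocks -/
def GoodXS (XS : ℕ → ℕ → Prop) : Prop :=
  ∀ (m : ℤ) (r t h : ℕ) (f : ℤ → ℕ), Num3 m t h f → r = 2 * t + h → 9 ≤ r → t ≠ 0 → h ≠ 0 → ¬ XS t h → CrA (2 * m) r f

/-- three Hodge numbers -/
theorem caseL_three43 (hXU : GoodXU XU) (hXS : GoodXS XS) (H : IsHW w Q S P) (G : IsGalU w Q S P Γ)
    (F : IsHF w Q P Γ T R) {s : ι → (ℂ ≃+* ℂ)}
    (hs : ∀ i, IsHTs w Q S P Γ (s i).symm (T i) (R i)) (he : IsBlk P e) (hVW : V * W = 1) (hWV : W * V = e) (hr : 2 ≤ r)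
    {i0 : ι} (hns : ∀ p, (e * R i0 p).rank ≠ r) (hT : ThreeP XU XS Q P e (e.map (s i0))) :
    CaseL w Q P r (T i0) (R i0) e := by
  obtain ⟨i, j, a, b, c, ha, hc, ha0, hc0, hre', h0, hX⟩ := hT
  have hre := _root_.MH.blk_rank he hVW hWV
  have hirr := F.irr43 G he hVW hWV
  have hnum : ∀ p, (e * R i0 p).rank = (e.map (s i0) * P p).rank := fun p => by
    rw [(hs i0).rank e he p, H.rank_symm43 he]
  have hf : (fun p => (e * R i0 p).rank) = fun p => (e.map (s i0) * P p).rank := funext hnum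
  have hr0 : ∀ p, p ≠ i → p ≠ j → 2 * p ≠ i + j → (e.map (s i0) * P p).rank = 0 := fun p p1 p2 p3 => by
    rw [h0 p p1 p2 p3, Matrix.rank_zero]
  have hsum : e.rank = ∑ p ∈ S, (e.map (s i0) * P p).rank := by
    rw [H.sum_blk14 (he.aut (s i0)), rank_aut _ he.idem]
  have hS : ∀ p, p ∉ S → (e.map (s i0) * P p).rank = 0 := fun p hp => by
    rw [H.supp p hp, Matrix.mul_zero, Matrix.rank_zero]
  have hij : i ≠ j := by
    rintro rfl
    apply hns i
    rw [hnum, ← hre, hsum]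
    by_cases hi : i ∈ S
    · rw [Finset.sum_eq_single i (fun p _ hp => hr0 p hp hp (by omega)) (fun h => absurd hi h)]
    · exfalso
      rw [hS i hi] at ha
      omega
  rcases hX with ⟨hI, hac, hx⟩ | ⟨h9, hb, hX⟩
  · refine Or.inr (Or.inl ⟨?_, i, j, hij, ?_, ?_⟩)
    · rw [hf]
      exact hI
    · intro p p1 p2 p3
      change (e * R i0 p).rank = 0
      rw [hnum]
      exact hr0 p p1 p2 p3
    · change Core3 r (e * R i0 i).rank (r - (e * R i0 i).rank - (e * R i0 j).rank) (e * R i0 j).rank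
      rw [hnum, hnum, ha, hc, show r - a - c = b by omega]
      refine hXU ha0 hc0 ?_ hx
      rwa [hre] at hac
  -- the forms
  have hD : SelfB Q P e := by
    rcases hX with ⟨hO, -⟩ | ⟨hO, -⟩
    · exact hO.self43
    · exact hO.self43
  have hpal : ∀ p : ℤ, (e.map (s i0) * P (w - p)).rank = (e.map (s i0) * P p).rank := by
    intro p
    have h1 := pal43 H G he hVW hWV hirr (by omega) hD (F.ht i0) p
    rwa [hnum, hnum] at h1
  have hwij : w = i + j := by
    have h1 : w - i = i ∨ w - i = j ∨ 2 * (w - i) = i + j := by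
      by_contra hcon
      push Not at hcon
      have h2 := hr0 (w - i) hcon.1 hcon.2.1 hcon.2.2
      rw [hpal, ha] at h2
      omega
    have h2 : w - j = i ∨ w - j = j ∨ 2 * (w - j) = i + j := by
      by_contra hcon
      push Not at hcon
      have h2 := hr0 (w - j) hcon.1 hcon.2.1 hcon.2.2
      rw [hpal, hc] at h2
      omega
    omega
  have hcc : c = a := by
    rw [← hc, ← ha, ← hpal i, hwij, add_sub_cancel_left]
  -- the middle degree
  obtain ⟨m, hm⟩ : ∃ m : ℤ, i + j = 2 * m := by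
    by_contra hcon
    push Not at hcon
    have h1 : ∑ p ∈ S, (e.map (s i0) * P p).rank = a + c := by
      have hiS : i ∈ S := by
        by_contra h2
        rw [hS i h2] at ha
        omega
      have hjS : j ∈ S := by
        by_contra h2
        rw [hS j h2] at hc
        omega
      rw [← Finset.sum_subset (s₁ := {i, j}) (by
        intro p hp
        rw [Finset.mem_insert, Finset.mem_singleton] at hp
        rcases hp with rfl | rfl
        · exact hiS
        · exact hjS) (fun p _ hp => by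
        rw [Finset.mem_insert, Finset.mem_singleton, not_or] at hp
        exact hr0 p hp.1 hp.2 fun h3 => hcon p h3.symm), Finset.sum_pair hij, ha, hc]
    omega
  have hw2 : w = 2 * m := by omega
  obtain ⟨k, hk0, hki⟩ : ∃ k : ℤ, 0 < k ∧ ((i = m + k ∧ j = m - k) ∨ (i = m - k ∧ j = m + k)) := by
    rcases lt_or_gt_of_ne hij with h1 | h1
    · exact ⟨m - i, by omega, Or.inr ⟨by omega, by omega⟩⟩
    · exact ⟨i - m, by omega, Or.inl ⟨by omega, by omega⟩⟩
  have hup : (e.map (s i0) * P (m + k)).rank = a := by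
    rcases hki with ⟨h1, h2⟩ | ⟨h1, h2⟩
    · rw [← h1, ha]
    · rw [← h2, hc, hcc]
  have hlo : (e.map (s i0) * P (m - k)).rank = a := by
    rcases hki with ⟨h1, h2⟩ | ⟨h1, h2⟩
    · rw [← h2, hc, hcc]
    · rw [← h1, ha]
  have hz : ∀ p, p ≠ m + k → p ≠ m → p ≠ m - k → (e.map (s i0) * P p).rank = 0 := by
    intro p p1 p2 p3
    refine hr0 p ?_ ?_ ?_
    · rcases hki with ⟨h1, h2⟩ | ⟨h1, h2⟩ <;> rw [h1] <;> assumption
    · rcases hki with ⟨h1, h2⟩ | ⟨h1, h2⟩ <;> rw [h2] <;> assumption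
    · omega
  have hmid : (e.map (s i0) * P m).rank = b := by
    have h1 : Num3 m a (e.map (s i0) * P m).rank (fun p => (e.map (s i0) * P p).rank) := ⟨k, hk0, hup, rfl, hlo, hz⟩
    have h2 := rank_num3 H (he.aut (s i0)) h1
    rw [rank_aut _ he.idem] at h2
    omega
  have hN : Num3 m a b (fun p => (e.map (s i0) * P p).rank) := ⟨k, hk0, hup, hmid, hlo, hz⟩
  rcases hX with ⟨hO, hx⟩ | ⟨hO, hx⟩
  · refine Or.inl (Or.inr (Or.inr (Or.inl ⟨m, hw2, hO, ?_⟩)))
    rw [hf, hw2]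
    refine goodL_exc m r a b _ hN (by omega) (by omega) ?_
    rintro (h1 | h1 | h1)
    · omega
    · omega
    · exact hx h1
  · refine Or.inr (Or.inr ⟨m, hw2, hO, ?_⟩)
    rw [hf, hw2]
    exact hXS m r a b _ hN (by omega) (by omega) (by omega) (by omega) hx

/-- **the type of a block** -/
theorem tyN_goodP43 (hXU : GoodXU XU) (hXS : GoodXS XS) {E E' : Set ℕ} (hE : ExP E)
    (hU : ∀ (r : ℕ) (h : ℤ → ℕ), r ∉ E' → IndecU h → ¬ Arith r h → CrUP r h)
    (H : IsHW w Q S P) (G : IsGalU w Q S P Γ) (F : IsHF w Q P Γ T R) {s : ι → (ℂ ≃+* ℂ)}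
    (hs : ∀ i, IsHTs w Q S P Γ (s i).symm (T i) (R i)) (he : IsBlk P e) (hVW : V * W = 1) (hWV : W * V = e) (hr : 2 ≤ r)
    {i0 : ι} (hst : StarB w Q P e (s i0)) (hg : GoodP XU XS E E' w Q S P e (s i0)) : TyN (cpS W V (LG Γ)) := by
  have hnum : ∀ i, (fun p => (e * R i p).rank) = fun p => (e.map (s i) * P p).rank := fun i => by
    funext p
    rw [(hs i).rank e he p, H.rank_symm43 he]
  have hN : (∀ i, NoF (fun p => (e * R i0 p).rank) (fun p => (e * R i p).rank)) ∨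
      SelfB Q P e ∧ ∀ i, NoFS w (fun p => (e * R i0 p).rank) (fun p => (e * R i p).rank) := by
    rcases hst with h1 | ⟨h1, h2⟩
    · left
      intro i
      rw [hnum, hnum]
      exact h1 (s i)
    · right
      refine ⟨h1, fun i => ?_⟩
      rw [hnum, hnum]
      exact h2 (s i)
  rcases hg with h3 | hg
  · exact F.tyL43 H G he hVW hWV hr (i0 := i0)
      (caseL_three43 hXU hXS H G F hs he hVW hWV hr (F.ns_of43 H G he hVW hWV hr hN) h3) hN
  · exact tyN_good43 hE hU H G F hs he hVW hWV hr hst (Or.inr hg)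

end MH
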