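import Pool.Agent.Helper43.L2.Fam3
import Pool.Agent.Helper81.L2.ListS

/-!
Project L2 (MP_b8862a_ag): the list of the symplectic blocks.
-/

set_option linter.unusedSectionVars false
set_option linter.unusedVariables false

open Matrix Module MH

namespace L2

/-- The condition on the list of the symplectic blocks, from the classification. -/
theorem goodXS : GoodXS ExcS := by
  intro m r t h f hN hr h9 ht hh hb
  obtain ⟨k, hk, h1, h2, h3, h4⟩ := hN
  refine ⟨?_, h9, fun _ => ?_⟩
  · refine indec_three55 (m := m) (k := k) hk (s := t) (h := h) h1 h2 h4 ?_
    intro h5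
    exact hb (Or.inl h5)
  · refine LT.core_ltA3 (n := Fin r) (a := m + k) (b := m - k) (c := m) (by ring) (by omega) (r := f)
      (fun p p1 p2 p3 => h4 p p1 p2 p3) (by omega) (by omega) (by omega) (by simp; omega) (by simp; omega) ?_
    intro ι _ Φ X l y v hd htop hp
    rcases listS hd htop hp (by simp; omega) with h5 | h5
    · exact h5
    · exfalso
      have e1 : Fintype.card (Fin r) - 2 * f (m + k) = h := by
        simp
        omega
      rw [e1, h1] at h5
      exact hb h5

end L2
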