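import Pool.Agent.Helper43.L2.Master3
import Pool.Agent.Helper43.L2.GoodS
import Pool.Agent.Helper55.L2.Good

/-!
Project L2 (MP_b8862a_ag): the main theorem with the lists.
-/

set_option linter.unusedSectionVars false

open Matrix Module GH

namespace MH

variable {n : Type} [Fintype n] [DecidableEq n]
variable {w : ℤ} {Q : Matrix n n ℚ} {S : Finset ℤ} {P : ℤ → Matrix n n ℂ}

/-- **The main theorem.** -/
theorem master43L {E E' : Set ℕ} (hE : ExP E) (hEE : E ⊆ E')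
    (hU : ∀ (r : ℕ) (h : ℤ → ℕ), r ∉ E' → IndecU h → ¬ Arith r h → CrUP r h) (hF : FullP E') (H : IsHW w Q S P)
    (hdom : ∀ e, IsBlk P e → 2 ≤ e.rank → OkL E E' w Q S P e ∨ (∃ σ : ℂ ≃+* ℂ, RankB E E' w Q P e σ) ∧
        ∀ A : Matrix n n ℚ, (∀ p, toC A * P p = P p * toC A) → ∃ c : ℚ, A = c • (1 : Matrix n n ℚ)) :
    (∀ g : GL n ℂ, InD Q S P (g : Matrix n n ℂ) → g ∈ MT S P) ∧
    (∀ g ∈ MT S P, ∀ h ∈ MT S P, InD Q S P ((g * h * g⁻¹ * h⁻¹ : GL n ℂ) : Matrix n n ℂ)) ∧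
    (SelfDual Q P → ∀ g : GL n ℂ, g ∈ MT S P ↔ InGw w Q P (g : Matrix n n ℂ)) ∧
    ∀ (ℓ : ℕ) [Fact ℓ.Prime] (ι : ℚ_[ℓ] →+* ℂ) (Γ : Subgroup (GL n ℚ_[ℓ])),
      IsGalG w Q S P (Γ.map (Matrix.GeneralLinearGroup.map ι)) →
      (∃ D : Subgroup (GL n ℚ), IsMonB Q S P D ∧ D.map (Matrix.GeneralLinearGroup.map (algebraMap ℚ ℚ_[ℓ])) ≤ Γ) ∨
      ((∀ e, IsBlk P e → 2 ≤ e.rank → OkL E E' w Q S P e) ∧
        IsTateN S P (Γ.map (Matrix.GeneralLinearGroup.map ι))) →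
      ∀ (a b : ℕ) (t : (Fin a ⊕ Fin b → n) → ℂ),
        IsTateTensor (Γ.map (Matrix.GeneralLinearGroup.map ι)) a b t ↔ MTfix S P a b t :=
  master43P L2.goodXU L2.goodXS hE hEE hU hF H hdom

end MH
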